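import Pool.Agent.Run7.h612.SY.Cod
import Pool.Agent.Run7.h701.HK.Main

/-!
# Nef isotropic line bundles of positive Iitaka dimension: the fibration in codimension one

Let `M` be a projective hyperkähler manifold of dimension `n = 2 r` (or a normal projective variety
with a Poisson bracket and a compatible Beauville–Bogomolov form `b` on `Cl M ⊗ ℚ`), and let `L` be a
nef divisor on `M` with `b(L, L) = 0`, not numerically trivial, of positive Iitaka dimension. Then for
some `m ≥ 1` the rational map `φ : M ⇢ B` given by `|m L|` has the following properties:

* it is defined in codimension one and there `m L = φ^* O_B(1)`: `|m L|` has no fixed component;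
* it has connected fibres and is coisotropic: the functions on `B` commute under the bracket; so
  `dim B ≤ r` if the bracket is nondegenerate;
* the functions on `B` are the rational functions on `M` whose polar divisors are orthogonal to `L`;
* all components of codimension two of the base locus of `|m L|` are coisotropic.

The strong form of the hyperkähler SYZ conjecture for `L` says that moreover `dim B = r` and the base
locus of `|m L|` is empty.

`NormalModel` and `IsPrimeDivisor` are defined in `Pool.Agent.Y172.Defs`, `localRing` and `Through` in
`Pool.Agent.R887.Defs`, `IsFibration` in `Run7.h612.AB.Defs`, `cls` in `Pool.Agent.N110.NV.Defs`,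
`NefD` in `Pool.Agent.N110.DV.Defs`, `IsBBForm` in `Pool.Agent.Run7.h701.HK.Defs`, `polar` in
`Pool.Agent.Run7.h701.HK.Par`, the other definitions in `Run7.h612.SY`.
-/

set_option autoImplicit false

open FF Pool.Agent.Y172 Pool.Agent.N110 Pool.Agent.Run7.h701 Run7.h612.SY
open Pool.Agent.N110.DV (NefD)

/-- Let `M` be a normal projective variety of dimension `n` with generic point `y`, `br` a Poisson
bracket on `M`, `b` a compatible Beauville–Bogomolov form on `Cl M ⊗ ℚ = ℚ ^ ρ` and `L` a divisor on
`M` with nonzero class, `b(L, L) = 0` and positive Iitaka dimension, nef or nonnegative on the prime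
divisors. Then for some `m ≥ 1` the linear system `|m L|` has no fixed component, the map given by it
is a coisotropic fibration whose functions are those with polar divisor orthogonal to `L`, and every
subvariety of dimension at least `n - 2` (the centre of a place `R`) in its base locus is
coisotropic. If the bracket is nondegenerate the Iitaka dimension of `L` is at most `n / 2`. -/
theorem Pool.Agent.Results.MP_a405d2_ag.CodimensionOne.result
    {K : Type} [Field K] [Algebra ℂ K] {N ρ n : ℕ} {y : Fin (N + 1) → K} (hy : NormalModel y)
    (hn : Algebra.trdeg ℂ K = n) {br : K → K → K} (hbr : IsPoisson y br)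
    {c : Place ℂ K → Fin ρ → ℚ} {b : LinearMap.BilinForm ℚ (Fin ρ → ℚ)}
    (hb : IsSymplecticForm y n br c b) {L : Place ℂ K → ℚ} (hL : IsDivisor y L)
    (hnef : NefD y n L ∨ ∀ P, IsPrimeDivisor y P → 0 ≤ b (cls y c L) (c P))
    (hne : cls y c L ≠ 0) (hq : b (cls y c L) (cls y c L) = 0) (hk : IitakaGe y L 1) :
    (∃ m : ℕ, 1 ≤ m ∧ NoFixedComponent y (m • L) ∧ IsCoisotropicFibration br (mapField y L m) ∧
      (∀ f : K, f ∈ mapField y L m ↔ b (cls y c L) (cls y c (HK.polar f)) = 0) ∧
      ∀ R : Place ℂ K, InBaseLocus y (m • L) R → CentreDimGe y R (n - 2) →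
        CoisotropicCentre br y R) ∧
    (Nondegenerate n br → ∀ k : ℕ, IitakaGe y L k → 2 * k ≤ n) := by
  have hmov : ∀ P, IsPrimeDivisor y P → 0 ≤ b (cls y c L) (c P) := fun P hP => by
    rcases hnef with h | h
    · exact HK.nef_pair hy hn hb.form hL h hP
    · exact h P hP
  exact ⟨codim_one hy hn hbr hb hL hmov hne hq hk, fun hnd k hk' =>
    two_mul_iitaka hbr hnd (comm_movable hy hn hbr hb hL hmov hne hq) hk'⟩
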