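import Pool.Agent.Run7.h701.HK.Ord

/-!
# Nef isotropic divisors and invariant functions of parabolic birational self-maps

Let `X` be a projective hyperkähler manifold of any deformation type (or a normal projective variety
of irregularity zero with a Beauville–Bogomolov form), `L` a nef divisor with `q(L) = 0`, not
numerically trivial, and `g` a birational self-map of `X` (an isomorphism in codimension one) which
preserves the class of `L` and acts on `Cl X ⊗ ℚ` by an isometry of infinite order. Then the Iitaka
dimension of `L` is at least the transcendence degree of the field of the `g`-invariant rational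
functions, if this degree is positive.

`NormalModel` and `IsPrimeDivisor` are defined in `Pool.Agent.Y172.Defs`, `cls` and `FiniteClasses` in
`Pool.Agent.N110.NV.Defs`, `PseudoAut` in `Pool.Agent.N110.PA.Defs`, `NefD` and `IitakaGe` in
`Pool.Agent.N110.DV.Defs`, `IsBBForm` in `Pool.Agent.Run7.h701.HK.Defs` and `IsPull` in
`Pool.Agent.Run7.h701.HK.Par`.
-/

set_option autoImplicit false

open FF Pool.Agent.Y172 Pool.Agent.N110 Pool.Agent.N110.DV Pool.Agent.Run7.h701.HK

/-- Let `X` be a normal projective variety of dimension `n` with generic point `y`, let the integral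
vectors `c P` be the classes of the prime divisors, `b` a Beauville–Bogomolov form on
`Cl X ⊗ ℚ = ℚ ^ ρ`, and `L` a nef `ℚ`-divisor on `X` with nonzero class and `b(L, L) = 0`. Let the
automorphism `φ` of the function field give a pseudo-automorphism of `X`, whose pull back `T` on
`Cl X ⊗ ℚ` is an isometry of infinite order which fixes the class of `L`. If there are `k ≥ 1`
algebraically independent `φ`-invariant rational functions then `κ(L) ≥ k`. -/
theorem Pool.Agent.Results.MP_a405d2_ag.InvariantFunctions.result
    {K : Type} [Field K] [Algebra ℂ K] {N ρ n : ℕ} {y : Fin (N + 1) → K} (hy : NormalModel y)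
    (hn : Algebra.trdeg ℂ K = n) {c : Place ℂ K → Fin ρ → ℚ}
    {b : LinearMap.BilinForm ℚ (Fin ρ → ℚ)} (hb : IsBBForm y c b)
    (hint : ∀ P, IsPrimeDivisor y P → ∀ i, ∃ z : ℤ, c P i = z) {L : Place ℂ K → ℚ}
    (hL : {P | IsPrimeDivisor y P ∧ L P ≠ 0}.Finite) (hnef : NefD y n L)
    (hne : cls y c L ≠ 0) (hq : b (cls y c L) (cls y c L) = 0)
    {φ : K ≃ₐ[ℂ] K} (hφ : PseudoAut φ y) {T : (Fin ρ → ℚ) ≃ₗ[ℚ] (Fin ρ → ℚ)}
    (hT : IsPull y c φ T) (hTb : ∀ u v, b (T u) (T v) = b u v)
    (hTL : T (cls y c L) = cls y c L) (hTi : ∀ m : ℕ, 1 ≤ m → T ^ m ≠ 1)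
    {k : ℕ} (hk : 1 ≤ k) {f : Fin k → K} (hf : AlgebraicIndependent ℂ f)
    (hφf : ∀ i, φ (f i) = f i) : IitakaGe y L k :=
  parabolic hy hn hb hint hL hnef hne hq hφ hT hTb hTL hTi hk hf hφf
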